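import Mathlib
import Pool.Agent.H82.NP.Trig
import Pool.Agent.H62.NP.UNIQ
import Pool.Agent.H25.Star.HullCompact

/-!
# NP, module ATOM: functionals nonnegative on nonnegative trigonometric polynomials are atomic
-/

set_option autoImplicit false

open Metric Set Filter Topology Polynomial

namespace Pool.Agent.H34.NP

open Pool.Agent.H82.NP

/-- the curve -/
noncomputable def wv (n : ℕ) (z : ℂ) : Fin n → ℂ :=
  fun k => 2 * (starRingEnd ℂ) z ^ ((k : ℕ) + 1)

lemma wv_cont (n : ℕ) : Continuous (wv n) := by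
  apply continuous_pi
  intro k
  have h2 : Continuous (fun w : ℂ => (starRingEnd ℂ) w) := Complex.continuous_conj
  exact continuous_const.mul (h2.pow _)

lemma TP_wv (n : ℕ) (τ : ℕ → ℂ) (z : ℂ) :
    TP n τ z = (τ 0).re + ∑ k : Fin n, (τ ((k : ℕ) + 1) * wv n z k).re := by
  have h1 : Finset.Icc 1 n = Finset.Ico 1 (n + 1) := by
    ext k
    simp only [Finset.mem_Icc, Finset.mem_Ico]
    omega
  rw [TP, h1, Finset.sum_Ico_eq_sum_range, Nat.add_sub_cancel, Finset.sum_range, Finset.mul_sum]
  congr 1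
  apply Finset.sum_congr rfl
  intro k _
  have h2 : ((starRingEnd ℂ) (τ (1 + (k : ℕ))) * z ^ (1 + (k : ℕ))).re
      = (τ ((k : ℕ) + 1) * (starRingEnd ℂ) z ^ ((k : ℕ) + 1)).re := by
    rw [← Complex.conj_re ((starRingEnd ℂ) (τ (1 + (k : ℕ))) * z ^ (1 + (k : ℕ)))]
    rw [map_mul, Complex.conj_conj, map_pow, add_comm 1 (k : ℕ)]
  rw [h2, wv]
  have h3 : τ ((k : ℕ) + 1) * (2 * (starRingEnd ℂ) z ^ ((k : ℕ) + 1))
      = ((2 : ℝ) : ℂ) * (τ ((k : ℕ) + 1) * (starRingEnd ℂ) z ^ ((k : ℕ) + 1)) := by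
    push_cast
    ring
  rw [h3, Complex.re_ofReal_mul]

lemma L_eq (n : ℕ) (x τ : ℕ → ℂ) :
    L n x τ = (x 0 * τ 0).re + ∑ k : Fin n, (x ((k : ℕ) + 1) * τ ((k : ℕ) + 1)).re := by
  rw [L, Finset.sum_range_succ', Complex.add_re, add_comm, Finset.sum_range, Complex.re_sum]

/-- coefficients of a real functional -/
noncomputable def fc {n : ℕ} (f : StrongDual ℝ (Fin n → ℂ)) (k : Fin n) : ℂ :=
  ⟨f (Pi.single k 1), -f (Pi.single k Complex.I)⟩

lemma fc_eq {n : ℕ} (f : StrongDual ℝ (Fin n → ℂ)) (v : Fin n → ℂ) :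
    f v = ∑ k, (fc f k * v k).re := by
  conv_lhs => rw [← Finset.univ_sum_single v, map_sum]
  apply Finset.sum_congr rfl
  intro k _
  have h1 : (Pi.single k (v k) : Fin n → ℂ)
      = (v k).re • (Pi.single k (1 : ℂ) : Fin n → ℂ)
        + (v k).im • (Pi.single k Complex.I : Fin n → ℂ) := by
    rw [← Pi.single_smul, ← Pi.single_smul, ← Pi.single_add]
    congr 1
    apply Complex.ext <;> simp
  rw [h1, map_add, map_smul, map_smul, Complex.mul_re, fc]
  simp only [smul_eq_mul]
  ring

/-- sequence with given entries -/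
noncomputable def sq0 {n : ℕ} (c : ℂ) (a : Fin n → ℂ) : ℕ → ℂ
  | 0 => c
  | (j + 1) => if h : j < n then a ⟨j, h⟩ else 0

lemma sq0_succ {n : ℕ} (c : ℂ) (a : Fin n → ℂ) (k : Fin n) : sq0 c a ((k : ℕ) + 1) = a k := by
  rw [sq0]
  simp

lemma mean_nonneg {n : ℕ} (τ : ℕ → ℂ) (h0 : (τ 0).im = 0)
    (h : ∀ z : ℂ, ‖z‖ = 1 → 0 ≤ TP n τ z) : 0 ≤ (τ 0).re := by
  have h1 := Pool.Agent.H62.NP.t_LAV n (fun k => if k = 0 then 1 else 0) τ h0
  have h2 : ∀ z : ℂ, (∑ k ∈ Finset.range (n + 1), (if k = 0 then (1 : ℂ) else 0) * z ^ k) = 1 := by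
    intro z
    rw [Finset.sum_range_succ']
    simp
  have h3 : L n (fun k => if k = 0 then 1 else 0) τ = (τ 0).re := by
    rw [L_eq]
    simp
  rw [h3] at h1
  rw [← h1]
  apply Real.circleAverage_nonneg_of_nonneg
  intro z hz
  rw [h2, Complex.one_re, mul_one]
  apply h
  simpa using hz

theorem t_ATOM : T_ATOM := by
  intro n x hx
  have hx0 : 0 ≤ (x 0).re := by
    have h1 := hx (sq0 1 (fun _ : Fin n => (0 : ℂ))) (by
      refine ⟨rfl, fun z _ => ?_⟩
      rw [TP_wv]
      simp only [sq0_succ]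
      simp [sq0])
    rw [L_eq] at h1
    simp only [sq0_succ] at h1
    simpa [sq0] using h1
  rcases hx0.eq_or_lt with h0 | h0
  · -- degenerate case
    have hz : ∀ k : Fin n, x ((k : ℕ) + 1) = 0 := by
      intro k
      by_contra hne
      set y := x ((k : ℕ) + 1) with hy
      have hyp : 0 < ‖y‖ := norm_pos_iff.2 hne
      set ε : ℝ := 1 / (2 * ‖y‖) with hε
      have hεp : 0 < ε := by positivity
      set a : Fin n → ℂ := Pi.single k (-((ε : ℂ) * (starRingEnd ℂ) y)) with ha
      have h1 := hx (sq0 1 a) (by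
        refine ⟨rfl, fun z hz => ?_⟩
        rw [TP_wv]
        simp only [sq0_succ]
        rw [Finset.sum_eq_single k]
        · rw [ha, Pi.single_eq_same, wv]
          have h2 : |(-((ε : ℂ) * (starRingEnd ℂ) y)
              * (2 * (starRingEnd ℂ) z ^ ((k : ℕ) + 1))).re| ≤ 1 := by
            refine (Complex.abs_re_le_norm _).trans ?_
            rw [norm_mul, norm_neg, norm_mul, norm_mul, norm_pow, RCLike.norm_conj, RCLike.norm_conj,
              hz, one_pow, Complex.norm_real, Real.norm_eq_abs, abs_of_pos hεp, hε]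
            have : (1 / (2 * ‖y‖)) * ‖y‖ * (‖(2 : ℂ)‖ * 1) = 1 := by
              rw [Complex.norm_ofNat]
              field_simp
            rw [this]
          have h3 := neg_le_of_abs_le h2
          show 0 ≤ (1 : ℂ).re + _
          rw [Complex.one_re]
          linarith
        · intro j _ hj
          rw [ha, Pi.single_eq_of_ne hj]
          simp
        · simp)
      rw [L_eq] at h1
      simp only [sq0_succ] at h1
      rw [Finset.sum_eq_single k] at h1
      · rw [ha, Pi.single_eq_same, ← hy] at h1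
        have h4 : y * -((ε : ℂ) * (starRingEnd ℂ) y) = ((-(ε * ‖y‖ ^ 2) : ℝ) : ℂ) := by
          have h5 : y * (starRingEnd ℂ) y = ((‖y‖ ^ 2 : ℝ) : ℂ) := by
            rw [Complex.mul_conj, Complex.normSq_eq_norm_sq]
          have h6 : y * -((ε : ℂ) * (starRingEnd ℂ) y) = -((ε : ℂ) * (y * (starRingEnd ℂ) y)) := by
            ring
          rw [h6, h5]
          push_cast
          ring
        rw [h4, Complex.ofReal_re] at h1
        have h7 : (x 0 * sq0 1 a 0).re = 0 := by
          show (x 0 * 1).re = 0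
          rw [mul_one, ← h0]
        rw [h7] at h1
        have : 0 < ε * ‖y‖ ^ 2 := by positivity
        linarith
      · intro j _ hj
        rw [ha, Pi.single_eq_of_ne hj]
        simp
      · simp
    refine ⟨0, Fin.elim0, Fin.elim0, fun i => i.elim0, fun i => i.elim0, ?_⟩
    intro τ hτ
    rw [L_eq, Finset.sum_eq_zero]
    · rw [Complex.mul_re, hτ, ← h0]
      simp
    · intro k _
      rw [hz k]
      simp
  · -- main case
    set y : Fin n → ℂ := fun k => x ((k : ℕ) + 1) / (x 0).re with hy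
    have hxy : ∀ k : Fin n, x ((k : ℕ) + 1) = ((x 0).re : ℂ) * y k := by
      intro k
      rw [hy]
      have : ((x 0).re : ℂ) ≠ 0 := by exact_mod_cast h0.ne'
      field_simp
    have hmem : y ∈ convexHull ℝ (wv n '' sphere (0 : ℂ) 1) := by
      by_contra hny
      have hcomp : IsCompact (convexHull ℝ (wv n '' sphere (0 : ℂ) 1)) :=
        Pool.Agent.H25.Star.isCompact_convexHull ((isCompact_sphere (0 : ℂ) 1).image (wv_cont n))
      obtain ⟨f, u, hfy, hfb⟩ := geometric_hahn_banach_point_closed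
        (convex_convexHull ℝ _) hcomp.isClosed hny
      have hTP : ∀ (v : ℝ) (z : ℂ), TP n (sq0 ((-v : ℝ) : ℂ) (fc f)) z = -v + f (wv n z) := by
        intro v z
        rw [TP_wv, fc_eq]
        simp only [sq0_succ]
        simp [sq0]
      have hwz : ∀ z : ℂ, ‖z‖ = 1 → u < f (wv n z) := by
        intro z hz
        exact hfb _ (subset_convexHull ℝ _ ⟨z, by simpa using hz, rfl⟩)
      have hu : 0 ≤ -u := by
        have h1 := mean_nonneg (n := n) (sq0 ((-u : ℝ) : ℂ) (fc f)) (by simp [sq0]) (by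
          intro z hz
          rw [hTP]
          linarith [hwz z hz])
        simpa [sq0] using h1
      set v := (f y + u) / 2 with hv
      have hv1 : f y < v := by rw [hv]; linarith
      have hv2 : v < u := by rw [hv]; linarith
      have hv3 : 0 < -v := by linarith
      have hv4 : ((-v : ℝ) : ℂ) ≠ 0 := by exact_mod_cast hv3.ne'
      set τ : ℕ → ℂ := fun j => (((-v)⁻¹ : ℝ) : ℂ) * sq0 ((-v : ℝ) : ℂ) (fc f) j with hτ
      have hadm : Adm n τ := by
        constructor
        · show (((-v)⁻¹ : ℝ) : ℂ) * ((-v : ℝ) : ℂ) = 1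
          rw [Complex.ofReal_inv]
          exact inv_mul_cancel₀ hv4
        · intro z hz
          rw [hτ, TP_smul, hTP]
          have := hwz z hz
          apply mul_nonneg (inv_nonneg.2 hv3.le)
          linarith
      have h1 := hx τ hadm
      have h2 : L n x τ = (x 0).re * (-v)⁻¹ * (-v + f y) := by
        rw [L_eq, fc_eq, hadm.1, mul_one, mul_add, Finset.mul_sum]
        congr 1
        · rw [mul_assoc, inv_mul_cancel₀ hv3.ne', mul_one]
        · apply Finset.sum_congr rfl
          intro k _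
          rw [hτ]
          simp only [sq0_succ]
          rw [hxy k]
          have : ((x 0).re : ℂ) * y k * ((((-v)⁻¹ : ℝ) : ℂ) * fc f k)
              = (((x 0).re * (-v)⁻¹ : ℝ) : ℂ) * (fc f k * y k) := by
            push_cast
            ring
          rw [this, Complex.re_ofReal_mul]
      rw [h2] at h1
      have h3 : 0 < (x 0).re * (-v)⁻¹ := mul_pos h0 (inv_pos.2 hv3)
      have h4 : -v + f y < 0 := by linarith
      nlinarith [mul_neg_of_pos_of_neg h3 h4]
    obtain ⟨ι, _, w, z, hw0, hw1, hz, hsum⟩ := mem_convexHull_iff_exists_fintype.1 hmem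
    have hζ : ∀ i, ∃ ζ : ℂ, ‖ζ‖ = 1 ∧ wv n ζ = z i := by
      intro i
      obtain ⟨ζ, h1, h2⟩ := hz i
      exact ⟨ζ, by simpa using h1, h2⟩
    choose ζ hζ1 hζ2 using hζ
    classical
    set e := Fintype.equivFin {i : ι // 0 < w i} with he
    refine ⟨Fintype.card {i : ι // 0 < w i}, fun j => (x 0).re * w (e.symm j),
      fun j => ζ (e.symm j), fun j => mul_pos h0 (e.symm j).2, fun j => hζ1 _, ?_⟩
    intro τ hτ
    have h1 : ∑ j, (x 0).re * w (e.symm j) * TP n τ (ζ (e.symm j))
        = ∑ i : {i : ι // 0 < w i}, (x 0).re * w i * TP n τ (ζ i) :=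
      Equiv.sum_comp e.symm (fun i : {i : ι // 0 < w i} => (x 0).re * w i * TP n τ (ζ i))
    have h2 : ∑ i : {i : ι // 0 < w i}, (x 0).re * w i * TP n τ (ζ i)
        = ∑ i, (x 0).re * w i * TP n τ (ζ i) := by
      rw [← Finset.sum_subtype (Finset.univ.filter (fun i => 0 < w i)) (by simp)
        (fun i => (x 0).re * w i * TP n τ (ζ i))]
      apply Finset.sum_filter_of_ne
      intro i _ hi
      rcases (hw0 i).eq_or_lt with h | h
      · exfalso
        apply hi
        rw [← h]
        ring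
      · exact h
    rw [h1, h2, L_eq]
    have h3 : ∀ i, (x 0).re * w i * TP n τ (ζ i)
        = (x 0).re * (τ 0).re * w i
          + (x 0).re * ∑ k : Fin n, (τ ((k : ℕ) + 1) * ((w i : ℂ) * z i k)).re := by
      intro i
      rw [TP_wv, hζ2, mul_add]
      congr 1
      · ring
      · rw [Finset.mul_sum, Finset.mul_sum]
        apply Finset.sum_congr rfl
        intro k _
        have : τ ((k : ℕ) + 1) * ((w i : ℂ) * z i k)
            = (w i : ℂ) * (τ ((k : ℕ) + 1) * z i k) := by ring
        rw [this, Complex.re_ofReal_mul]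
        ring
    rw [Finset.sum_congr rfl (fun i _ => h3 i), Finset.sum_add_distrib, ← Finset.mul_sum, hw1,
      mul_one, ← Finset.mul_sum, Finset.sum_comm, Complex.mul_re, hτ, mul_zero, sub_zero]
    congr 1
    rw [Finset.mul_sum]
    apply Finset.sum_congr rfl
    intro k _
    rw [← Complex.re_sum, ← Finset.mul_sum, ← Complex.re_ofReal_mul, hxy k]
    have h4 : ∑ i, (w i : ℂ) * z i k = y k := by
      rw [← hsum]
      simp
    rw [h4]
    congr 1
    ring

end Pool.Agent.H34.NP
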