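import Mathlib
import Pool.Agent.H82.NP.Trig

/-!
# NP, module FR: the Fejér-Riesz theorem
-/

set_option autoImplicit false

open Metric Set Filter Topology Polynomial

namespace Pool.Agent.H34.NP

open Pool.Agent.H82.NP

lemma unit_mul_conj {z : ℂ} (hz : ‖z‖ = 1) : z * (starRingEnd ℂ) z = 1 := by
  rw [Complex.mul_conj, Complex.normSq_eq_norm_sq, hz]; simp

lemma unit_ne {z : ℂ} (hz : ‖z‖ = 1) : z ≠ 0 := by
  rintro rfl
  simp at hz

lemma norm_exp_I (θ : ℝ) : ‖Complex.exp (θ * Complex.I)‖ = 1 := Complex.norm_exp_ofReal_mul_I θ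

lemma circle_inf : {z : ℂ | ‖z‖ = 1}.Infinite := by
  refine Set.infinite_of_injective_forall_mem
    (f := fun n : ℕ => Complex.exp (((1 / ((n : ℝ) + 1) : ℝ) : ℂ) * Complex.I)) ?_ ?_
  · intro a b hab
    have h1 := congrArg Complex.re hab
    simp only [Complex.exp_ofReal_mul_I_re] at h1
    have hmem : ∀ n : ℕ, (1 / ((n : ℝ) + 1)) ∈ Icc 0 Real.pi := by
      intro n
      have h0 : (0 : ℝ) ≤ n := Nat.cast_nonneg n
      constructor
      · positivity
      · rw [div_le_iff₀ (by positivity)]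
        have := Real.pi_gt_three
        nlinarith
    have h2 := Real.injOn_cos (hmem a) (hmem b) h1
    have h3 : (a : ℝ) + 1 = b + 1 := by
      have ha : (0 : ℝ) < (a : ℝ) + 1 := by positivity
      have hb : (0 : ℝ) < (b : ℝ) + 1 := by positivity
      field_simp at h2
      linarith
    exact_mod_cast (by linarith : (a : ℝ) = b)
  · intro n
    exact norm_exp_I _

/-- `Q / z^n` is nonnegative on the circle -/
def Pos (n : ℕ) (Q : ℂ[X]) : Prop := ∀ z : ℂ, ‖z‖ = 1 → ∃ t : ℝ, 0 ≤ t ∧ Q.eval z = t * z ^ n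

lemma eval_reflect {N : ℕ} {f : ℂ[X]} (hf : f.natDegree ≤ N) {x : ℂ} (hx : x ≠ 0) :
    (reflect N f).eval x⁻¹ * x ^ N = f.eval x := by
  let _ : Invertible x := invertibleOfNonzero hx
  have := eval₂_reflect_mul_pow (RingHom.id ℂ) x N f hf
  rw [invOf_eq_inv] at this
  simpa [eval₂_id] using this

lemma self_rec {n : ℕ} {Q : ℂ[X]} (hd : Q.natDegree ≤ 2 * n) (hQ : Pos n Q) :
    reflect (2 * n) (Q.map (starRingEnd ℂ)) = Q := by
  apply eq_of_infinite_eval_eq
  refine circle_inf.mono ?_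
  intro z hz
  have hz1 : ‖z‖ = 1 := hz
  have hz0 := unit_ne hz1
  have hc0 : (starRingEnd ℂ) z ≠ 0 := by
    rw [Ne, map_eq_zero]; exact hz0
  have hdm : (Q.map (starRingEnd ℂ)).natDegree ≤ 2 * n := by
    rw [natDegree_map]; exact hd
  have h1 := eval_reflect hdm hc0
  have h2 : ((starRingEnd ℂ) z)⁻¹ = z := by
    rw [inv_eq_iff_eq_inv]
    exact eq_inv_of_mul_eq_one_left (by rw [mul_comm]; exact unit_mul_conj hz1)
  rw [h2] at h1
  have h3 : (Q.map (starRingEnd ℂ)).eval ((starRingEnd ℂ) z) = (starRingEnd ℂ) (Q.eval z) := by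
    rw [eval_map, eval₂_hom]
  obtain ⟨t, _, ht⟩ := hQ z hz1
  rw [h3, ht] at h1
  show eval z _ = eval z Q
  rw [ht]
  have h4 : (starRingEnd ℂ) (t * z ^ n) * z ^ (2 * n) = t * z ^ n := by
    rw [map_mul, Complex.conj_ofReal, map_pow, two_mul, pow_add]
    have : (t : ℂ) * (starRingEnd ℂ) z ^ n * (z ^ n * z ^ n) = t * (z * (starRingEnd ℂ) z) ^ n * z ^ n := by ring
    rw [this, unit_mul_conj hz1]
    ring
  rw [← h4, ← h1]
  have h5 : (starRingEnd ℂ) z ^ (2 * n) * z ^ (2 * n) = 1 := by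
    rw [← mul_pow, mul_comm, unit_mul_conj hz1, one_pow]
  rw [mul_assoc, h5, mul_one]

lemma root_reflect {n : ℕ} {Q : ℂ[X]} (hd : Q.natDegree ≤ 2 * n) (hQ : Pos n Q) {α : ℂ}
    (h0 : α ≠ 0) (hα : Q.eval α = 0) : Q.eval ((starRingEnd ℂ) α)⁻¹ = 0 := by
  have hc0 : (starRingEnd ℂ) α ≠ 0 := by
    rw [Ne, map_eq_zero]; exact h0
  have hdm : (Q.map (starRingEnd ℂ)).natDegree ≤ 2 * n := by
    rw [natDegree_map]; exact hd
  have h1 := eval_reflect hdm hc0
  rw [self_rec hd hQ] at h1
  have h3 : (Q.map (starRingEnd ℂ)).eval ((starRingEnd ℂ) α) = (starRingEnd ℂ) (Q.eval α) := by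
    rw [eval_map, eval₂_hom]
  rw [h3, hα, map_zero] at h1
  rcases mul_eq_zero.1 h1 with h | h
  · exact h
  · exact absurd h (pow_ne_zero _ hc0)

lemma coeff_zero_eq {n : ℕ} {Q : ℂ[X]} (hd : Q.natDegree ≤ 2 * n) (hQ : Pos n Q) :
    Q.coeff 0 = (starRingEnd ℂ) (Q.coeff (2 * n)) := by
  conv_lhs => rw [← self_rec hd hQ]
  rw [coeff_reflect, revAt_le (Nat.zero_le _), Nat.sub_zero, coeff_map]

/-- a root on the circle is a double root -/
lemma deriv_root {n : ℕ} {Q : ℂ[X]} (hQ : Pos n Q) {α : ℂ} (h1 : ‖α‖ = 1)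
    (hα : Q.eval α = 0) : (derivative Q).eval α = 0 := by
  have hα0 := unit_ne h1
  set F : ℂ → ℂ := fun s => Q.eval (α * Complex.exp (s * Complex.I)) *
    ((starRingEnd ℂ) α * Complex.exp (-(s * Complex.I))) ^ n with hF
  set D : ℂ := (derivative Q).eval α * (α * Complex.I) * ((starRingEnd ℂ) α) ^ n with hD
  have hder : HasDerivAt F D 0 := by
    have e1 : HasDerivAt (fun s : ℂ => α * Complex.exp (s * Complex.I)) (α * Complex.I) 0 := by
      have h2 : HasDerivAt (fun s : ℂ => s * Complex.I) Complex.I 0 := by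
        simpa using (hasDerivAt_id (0 : ℂ)).mul_const Complex.I
      have h3 := (h2.cexp).const_mul α
      simpa using h3
    have e2 : HasDerivAt (fun s : ℂ => Q.eval (α * Complex.exp (s * Complex.I)))
        ((derivative Q).eval α * (α * Complex.I)) 0 := by
      have h3 : HasDerivAt (fun x => Q.eval x) ((derivative Q).eval (α * Complex.exp (0 * Complex.I)))
          (α * Complex.exp (0 * Complex.I)) := Q.hasDerivAt _
      have h4 := HasDerivAt.comp (0 : ℂ) h3 e1
      have h5 : ((fun x => Q.eval x) ∘ fun s : ℂ => α * Complex.exp (s * Complex.I))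
          = fun s : ℂ => Q.eval (α * Complex.exp (s * Complex.I)) := rfl
      rw [h5] at h4
      simpa using h4
    have e3 : DifferentiableAt ℂ (fun s : ℂ => ((starRingEnd ℂ) α * Complex.exp (-(s * Complex.I))) ^ n) 0 := by
      fun_prop
    have e4 := e2.mul e3.hasDerivAt
    have e5 : Q.eval (α * Complex.exp (0 * Complex.I)) = 0 := by simp [hα]
    have e6 : ((starRingEnd ℂ) α * Complex.exp (-(0 * Complex.I))) ^ n = (starRingEnd ℂ) α ^ n := by simp
    rw [e5, e6, zero_mul, add_zero] at e4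
    exact e4
  have hval : ∀ θ : ℝ, ∃ t : ℝ, 0 ≤ t ∧ F θ = t := by
    intro θ
    have hn : ‖α * Complex.exp (θ * Complex.I)‖ = 1 := by
      rw [norm_mul, h1, norm_exp_I, one_mul]
    obtain ⟨t, ht0, ht⟩ := hQ _ hn
    refine ⟨t, ht0, ?_⟩
    simp only [hF]
    rw [ht, mul_assoc, ← mul_pow]
    have : α * Complex.exp (θ * Complex.I) * ((starRingEnd ℂ) α * Complex.exp (-(θ * Complex.I))) = 1 := by
      have e7 : α * Complex.exp (θ * Complex.I) * ((starRingEnd ℂ) α * Complex.exp (-(θ * Complex.I)))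
          = (α * (starRingEnd ℂ) α) * (Complex.exp (θ * Complex.I) * Complex.exp (-(θ * Complex.I))) := by
        ring
      rw [e7, ← Complex.exp_add, unit_mul_conj h1]
      simp
    rw [this, one_pow, mul_one]
  have hF0 : F 0 = 0 := by
    simp only [hF]
    simp [hα]
  have hre : D.re = 0 := by
    have h2 : HasDerivAt (fun x : ℝ => (F x).re) D.re 0 := by
      have := HasDerivAt.real_of_complex (z := 0) (e := F) (e' := D) (by simpa using hder)
      simpa using this
    have hmin : IsLocalMin (fun x : ℝ => (F x).re) 0 := by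
      refine Eventually.of_forall fun x => ?_
      obtain ⟨t, ht0, ht⟩ := hval x
      show (F ((0 : ℝ) : ℂ)).re ≤ (F x).re
      rw [ht, Complex.ofReal_zero, hF0]
      simpa using ht0
    exact hmin.hasDerivAt_eq_zero h2
  have him : D.im = 0 := by
    have h3 : HasDerivAt (fun s => (-Complex.I) * F s) ((-Complex.I) * D) 0 := hder.const_mul _
    have h2 : HasDerivAt (fun x : ℝ => ((-Complex.I) * F x).re) ((-Complex.I) * D).re 0 := by
      have := HasDerivAt.real_of_complex (z := 0) (e := fun s => (-Complex.I) * F s)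
        (e' := (-Complex.I) * D) (by simpa using h3)
      simpa using this
    have h4 : (fun x : ℝ => ((-Complex.I) * F x).re) = fun _ => 0 := by
      funext x
      obtain ⟨t, ht0, ht⟩ := hval x
      rw [ht]
      simp
    rw [h4] at h2
    have h5 := h2.unique (hasDerivAt_const (0 : ℝ) (0 : ℝ))
    simpa using h5
  have hD0 : D = 0 := Complex.ext hre him
  rw [hD] at hD0
  have hc0 : (starRingEnd ℂ) α ≠ 0 := by
    rw [Ne, map_eq_zero]; exact hα0
  rcases mul_eq_zero.1 hD0 with h | h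
  · rcases mul_eq_zero.1 h with h | h
    · exact h
    · exact absurd h (mul_ne_zero hα0 Complex.I_ne_zero)
  · exact absurd h (pow_ne_zero _ hc0)

/-- nonnegativity extends by continuity -/
lemma pos_extend {k : ℕ} {R : ℂ[X]} {α : ℂ}
    (h : ∀ z : ℂ, ‖z‖ = 1 → z ≠ α → ∃ t : ℝ, 0 ≤ t ∧ R.eval z = t * z ^ k) : Pos k R := by
  intro z hz
  by_cases hzα : z = α
  swap
  · exact h z hz hzα
  subst hzα
  set K : Set ℂ := {w | 0 ≤ w.re ∧ w.im = 0} with hK
  have hKc : IsClosed K := by
    have h1 : IsClosed {w : ℂ | 0 ≤ w.re} := isClosed_le continuous_const Complex.continuous_re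
    have h2 : IsClosed {w : ℂ | w.im = 0} := isClosed_eq Complex.continuous_im continuous_const
    exact h1.inter h2
  set ψ : ℂ → ℂ := fun w => R.eval w * (starRingEnd ℂ) w ^ k with hψ
  have hψc : Continuous ψ := by
    have : Continuous (fun w : ℂ => R.eval w) := R.continuous
    have h2 : Continuous (fun w : ℂ => (starRingEnd ℂ) w) := Complex.continuous_conj
    exact this.mul (h2.pow k)
  set s : ℕ → ℂ := fun j => z * Complex.exp (((1 / ((j : ℝ) + 1) : ℝ) : ℂ) * Complex.I) with hs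
  have hsn : ∀ j, ‖s j‖ = 1 := by
    intro j
    rw [hs]
    simp only
    rw [norm_mul, hz, norm_exp_I, one_mul]
  have hsne : ∀ j, s j ≠ z := by
    intro j hj
    have h1 : Complex.exp (((1 / ((j : ℝ) + 1) : ℝ) : ℂ) * Complex.I) = 1 := by
      have : z * Complex.exp (((1 / ((j : ℝ) + 1) : ℝ) : ℂ) * Complex.I) = z * 1 := by
        rw [mul_one]; exact hj
      exact mul_left_cancel₀ (unit_ne hz) this
    have h2 := congrArg Complex.re h1
    rw [Complex.exp_ofReal_mul_I_re, Complex.one_re] at h2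
    have h0 : (0 : ℝ) ≤ j := Nat.cast_nonneg j
    have h3 : (1 / ((j : ℝ) + 1)) ∈ Icc 0 Real.pi := by
      constructor
      · positivity
      · rw [div_le_iff₀ (by positivity)]
        have := Real.pi_gt_three
        nlinarith
    have h4 : (0 : ℝ) ∈ Icc 0 Real.pi := ⟨le_refl _, Real.pi_pos.le⟩
    have h5 := Real.injOn_cos h3 h4 (by rw [h2, Real.cos_zero])
    have h6 : (0 : ℝ) < 1 / ((j : ℝ) + 1) := by positivity
    linarith
  have hst : Tendsto s atTop (𝓝 z) := by
    have h1 : Tendsto (fun j : ℕ => (((1 / ((j : ℝ) + 1) : ℝ) : ℂ) * Complex.I)) atTop (𝓝 0) := by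
      have h2 : Tendsto (fun j : ℕ => (1 / ((j : ℝ) + 1) : ℝ)) atTop (𝓝 0) :=
        tendsto_one_div_add_atTop_nhds_zero_nat
      have h3 := (Complex.continuous_ofReal.tendsto (0 : ℝ)).comp h2
      have h4 := h3.mul_const Complex.I
      simpa using h4
    have h2 := (Complex.continuous_exp.tendsto 0).comp h1
    have h3 := h2.const_mul z
    have h5 : z * Complex.exp 0 = z := by simp
    rw [h5] at h3
    exact h3
  have hmem : ψ z ∈ K := by
    refine hKc.mem_of_tendsto ((hψc.tendsto z).comp hst) (Eventually.of_forall fun j => ?_)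
    obtain ⟨t, ht0, ht⟩ := h (s j) (hsn j) (hsne j)
    show ψ (s j) ∈ K
    have : ψ (s j) = t := by
      rw [hψ]
      simp only
      rw [ht, mul_assoc, ← mul_pow, unit_mul_conj (hsn j), one_pow, mul_one]
    rw [this, hK]
    exact ⟨by simpa using ht0, by simp⟩
  refine ⟨(ψ z).re, hmem.1, ?_⟩
  have h1 : ψ z = ((ψ z).re : ℂ) := Complex.ext (by simp) (by simpa using hmem.2)
  rw [← h1]
  show _ = R.eval z * (starRingEnd ℂ) z ^ k * z ^ k
  rw [mul_assoc, ← mul_pow, mul_comm ((starRingEnd ℂ) z), unit_mul_conj hz, one_pow, mul_one]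

/-- the polynomial form of the Fejér-Riesz theorem -/
theorem FRQ : ∀ (n : ℕ) (Q : ℂ[X]), Q.natDegree ≤ 2 * n → Q ≠ 0 → Pos n Q →
    ∃ G : ℂ[X], G.natDegree ≤ n ∧ (∀ z : ℂ, ‖z‖ < 1 → G.eval z ≠ 0) ∧
      ∀ z : ℂ, ‖z‖ = 1 → Q.eval z = ((‖G.eval z‖ ^ 2 : ℝ) : ℂ) * z ^ n := by
  intro n
  induction n with
  | zero =>
    intro Q hd hQ0 hQ
    have hd0 : Q.natDegree = 0 := by omega
    obtain ⟨t, ht0, ht⟩ := hQ 1 (by simp)
    rw [one_pow, mul_one] at ht
    have hQC : Q = C (t : ℂ) := by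
      have h1 := eq_C_of_natDegree_eq_zero hd0
      rw [h1, eval_C] at ht
      rw [h1, ht]
    refine ⟨C ((Real.sqrt t : ℝ) : ℂ), by simp, ?_, ?_⟩
    · intro z _
      rw [eval_C]
      intro h
      apply hQ0
      have h1 : Real.sqrt t = 0 := by exact_mod_cast h
      have h2 : t = 0 := (Real.sqrt_eq_zero ht0).1 h1
      rw [hQC, h2]
      simp
    · intro z _
      rw [hQC, eval_C, eval_C, pow_zero, mul_one, Complex.norm_real, Real.norm_eq_abs, sq_abs,
        Real.sq_sqrt ht0]
  | succ n ih =>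
    intro Q hd hQ0 hQ
    by_cases htop : Q.coeff (2 * (n + 1)) = 0
    · -- the degree drops and `X ∣ Q`
      have hc0 : Q.coeff 0 = 0 := by rw [coeff_zero_eq hd hQ, htop, map_zero]
      obtain ⟨R, hR⟩ := X_dvd_iff.2 hc0
      have hR0 : R ≠ 0 := by
        rintro rfl
        exact hQ0 (by rw [hR, mul_zero])
      have hRd : R.natDegree ≤ 2 * n := by
        have h1 : Q.natDegree = R.natDegree + 1 := by
          rw [hR, natDegree_X_mul hR0]
        have h2 : Q.natDegree ≠ 2 * (n + 1) := by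
          intro h
          rw [← h] at htop
          exact hQ0 (leadingCoeff_eq_zero.1 htop)
        omega
      have hRp : Pos n R := by
        intro z hz
        obtain ⟨t, ht0, ht⟩ := hQ z hz
        refine ⟨t, ht0, ?_⟩
        rw [hR, eval_mul, eval_X, pow_succ'] at ht
        apply mul_left_cancel₀ (unit_ne hz)
        rw [ht]
        ring
      obtain ⟨G, h1, h2, h3⟩ := ih R hRd hR0 hRp
      refine ⟨G, by omega, h2, ?_⟩
      intro z hz
      rw [hR, eval_mul, eval_X, h3 z hz, pow_succ']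
      ring
    · have hdeg : Q.natDegree = 2 * (n + 1) :=
        le_antisymm hd (le_natDegree_of_ne_zero htop)
      have hc0 : Q.eval 0 ≠ 0 := by
        rw [← coeff_zero_eq_eval_zero, coeff_zero_eq hd hQ]
        rw [Ne, map_eq_zero]
        exact htop
      -- a root outside the open unit disc
      obtain ⟨α, hα, hα1⟩ : ∃ α : ℂ, Q.eval α = 0 ∧ 1 ≤ ‖α‖ := by
        obtain ⟨a, ha⟩ := Complex.exists_root (f := Q) (by
          rw [← natDegree_pos_iff_degree_pos, hdeg]; omega)
        have ha' : Q.eval a = 0 := ha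
        have ha0 : a ≠ 0 := by
          rintro rfl
          exact hc0 ha'
        rcases le_total 1 ‖a‖ with h | h
        · exact ⟨a, ha', h⟩
        · refine ⟨((starRingEnd ℂ) a)⁻¹, root_reflect hd hQ ha0 ha', ?_⟩
          rw [norm_inv, RCLike.norm_conj]
          exact (one_le_inv₀ (norm_pos_iff.2 ha0)).2 h
      have hα0 : α ≠ 0 := by
        rintro rfl
        exact hc0 hα
      have hcα0 : (starRingEnd ℂ) α ≠ 0 := by
        rw [Ne, map_eq_zero]; exact hα0
      have hβ := root_reflect hd hQ hα0 hα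
      set β : ℂ := ((starRingEnd ℂ) α)⁻¹ with hβd
      have hdvd : (X - C α) * (X - C β) ∣ Q := by
        by_cases hab : α = β
        · have hn1 : ‖α‖ = 1 := by
            have h1 : ‖α‖ = ‖α‖⁻¹ := by
              conv_lhs => rw [hab, hβd, norm_inv, RCLike.norm_conj]
            have h2 : ‖α‖ ≠ 0 := norm_ne_zero_iff.2 hα0
            have h3 : ‖α‖ * ‖α‖ = 1 := by
              conv_lhs =>
                enter [2]
                rw [h1]
              exact mul_inv_cancel₀ h2
            nlinarith [norm_nonneg α]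
          have hdr := deriv_root hQ hn1 hα
          rw [← hab, ← pow_two]
          have h4 : 1 < Q.rootMultiplicity α := by
            rw [one_lt_rootMultiplicity_iff_isRoot hQ0]
            exact ⟨hα, hdr⟩
          exact (pow_dvd_pow _ h4).trans (pow_rootMultiplicity_dvd Q α)
        · have hcop : IsCoprime (X - C α) (X - C β) :=
            isCoprime_X_sub_C_of_isUnit_sub (sub_ne_zero.2 hab).isUnit
          exact hcop.mul_dvd (dvd_iff_isRoot.2 hα) (dvd_iff_isRoot.2 hβ)
      obtain ⟨R, hR⟩ := hdvd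
      have hR0 : R ≠ 0 := by
        rintro rfl
        exact hQ0 (by rw [hR, mul_zero])
      have hRd : R.natDegree ≤ 2 * n := by
        have h1 : Q.natDegree = ((X - C α) * (X - C β)).natDegree + R.natDegree := by
          rw [hR]
          exact natDegree_mul (mul_ne_zero (X_sub_C_ne_zero α) (X_sub_C_ne_zero β)) hR0
        rw [natDegree_mul (X_sub_C_ne_zero α) (X_sub_C_ne_zero β), natDegree_X_sub_C,
          natDegree_X_sub_C] at h1
        omega
      -- the identity on the circle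
      have hid : ∀ z : ℂ, ‖z‖ = 1 →
          (z - α) * (z - β) = -((starRingEnd ℂ) α)⁻¹ * ((‖z - α‖ ^ 2 : ℝ) : ℂ) * z := by
        intro z hz
        have h1 : ((‖z - α‖ ^ 2 : ℝ) : ℂ) = (z - α) * ((starRingEnd ℂ) z - (starRingEnd ℂ) α) := by
          rw [← map_sub, Complex.mul_conj, Complex.normSq_eq_norm_sq]
        rw [h1, hβd]
        have h2 := unit_mul_conj hz
        field_simp
        linear_combination (z - α) * h2
      set S : ℂ[X] := C (-((starRingEnd ℂ) α)⁻¹) * R with hS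
      have hcne : -((starRingEnd ℂ) α)⁻¹ ≠ 0 := neg_ne_zero.2 (inv_ne_zero hcα0)
      have hS0 : S ≠ 0 := mul_ne_zero (C_ne_zero.2 hcne) hR0
      have hSd : S.natDegree ≤ 2 * n := by
        rw [hS, natDegree_C_mul hcne]
        exact hRd
      have hQS : ∀ z : ℂ, ‖z‖ = 1 → Q.eval z = ((‖z - α‖ ^ 2 : ℝ) : ℂ) * z * S.eval z := by
        intro z hz
        rw [hR, eval_mul, eval_mul, eval_sub, eval_sub, eval_X, eval_C, eval_C, hid z hz, hS,
          eval_mul, eval_C]
        ring
      have hSp : Pos n S := by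
        apply pos_extend (α := α)
        intro z hz hne
        obtain ⟨t, ht0, ht⟩ := hQ z hz
        have hpos : 0 < ‖z - α‖ ^ 2 := by
          have : 0 < ‖z - α‖ := norm_pos_iff.2 (sub_ne_zero.2 hne)
          positivity
        refine ⟨t / ‖z - α‖ ^ 2, by positivity, ?_⟩
        rw [hQS z hz] at ht
        have hne2 : ((‖z - α‖ ^ 2 : ℝ) : ℂ) ≠ 0 := by exact_mod_cast hpos.ne'
        have h5 : ((t / ‖z - α‖ ^ 2 : ℝ) : ℂ) = t / ((‖z - α‖ ^ 2 : ℝ) : ℂ) := by
          rw [Complex.ofReal_div]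
        rw [h5]
        have h6 : ((‖z - α‖ ^ 2 : ℝ) : ℂ) * z ≠ 0 := mul_ne_zero hne2 (unit_ne hz)
        apply mul_left_cancel₀ h6
        rw [ht]
        field_simp
        ring
      obtain ⟨G, h1, h2, h3⟩ := ih S hSd hS0 hSp
      refine ⟨(X - C α) * G, ?_, ?_, ?_⟩
      · refine natDegree_mul_le.trans ?_
        rw [natDegree_X_sub_C]
        omega
      · intro z hz
        rw [eval_mul, eval_sub, eval_X, eval_C]
        refine mul_ne_zero (sub_ne_zero.2 ?_) (h2 z hz)
        rintro rfl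
        linarith
      · intro z hz
        rw [hQS z hz, h3 z hz, eval_mul, eval_sub, eval_X, eval_C, norm_mul, mul_pow,
          Complex.ofReal_mul]
        ring

theorem t_FR : T_FR := by
  intro n τ hτ
  obtain ⟨hτ0, hpos⟩ := hτ
  set Q : ℂ[X] := ∑ k ∈ Finset.Icc 1 n, (C ((starRingEnd ℂ) (τ k)) * X ^ (n + k) + C (τ k) * X ^ (n - k))
    + C (((τ 0).re : ℝ) : ℂ) * X ^ n with hQ
  have hev : ∀ z : ℂ, ‖z‖ = 1 → Q.eval z = (TP n τ z : ℂ) * z ^ n := by
    intro z hz
    have h1 : ∀ k ∈ Finset.Icc 1 n, eval z (C ((starRingEnd ℂ) (τ k)) * X ^ (n + k) + C (τ k) * X ^ (n - k))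
        = ((2 * ((starRingEnd ℂ) (τ k) * z ^ k).re : ℝ) : ℂ) * z ^ n := by
      intro k hk
      rw [Finset.mem_Icc] at hk
      rw [eval_add, eval_mul, eval_mul, eval_C, eval_C, eval_pow, eval_pow, eval_X]
      have h2 : ((2 * ((starRingEnd ℂ) (τ k) * z ^ k).re : ℝ) : ℂ)
          = (starRingEnd ℂ) (τ k) * z ^ k + (starRingEnd ℂ) ((starRingEnd ℂ) (τ k) * z ^ k) := by
        rw [Complex.add_conj]
      rw [h2, map_mul, Complex.conj_conj, map_pow]
      have h3 : z ^ n = z ^ k * z ^ (n - k) := by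
        rw [← pow_add]
        congr 1
        omega
      have h4 : (starRingEnd ℂ) z ^ k * z ^ k = 1 := by
        rw [← mul_pow, mul_comm, unit_mul_conj hz, one_pow]
      rw [pow_add]
      have h5 : ((starRingEnd ℂ) (τ k) * z ^ k + τ k * (starRingEnd ℂ) z ^ k) * z ^ n
          = (starRingEnd ℂ) (τ k) * (z ^ n * z ^ k) + τ k * ((starRingEnd ℂ) z ^ k * z ^ n) := by ring
      rw [h5]
      congr 2
      conv_rhs => rw [h3, ← mul_assoc, h4, one_mul]
    rw [hQ, eval_add, eval_finsetSum, Finset.sum_congr rfl h1, eval_mul, eval_C, eval_pow, eval_X,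
      ← Finset.sum_mul, ← add_mul]
    congr 1
    rw [TP, Finset.mul_sum]
    push_cast
    ring
  have hQn : Q.coeff n = 1 := by
    rw [hQ, coeff_add, finsetSum_coeff, Finset.sum_eq_zero, coeff_C_mul, coeff_X_pow, if_pos rfl,
      hτ0]
    · simp
    · intro k hk
      rw [Finset.mem_Icc] at hk
      rw [coeff_add, coeff_C_mul, coeff_C_mul, coeff_X_pow, coeff_X_pow, if_neg (by omega),
        if_neg (by omega)]
      simp
  have hQ0 : Q ≠ 0 := by
    intro h
    rw [h] at hQn
    simp at hQn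
  have hd : Q.natDegree ≤ 2 * n := by
    rw [hQ]
    refine natDegree_add_le_of_degree_le (natDegree_sum_le_of_forall_le _ _ ?_) ?_
    · intro k hk
      rw [Finset.mem_Icc] at hk
      refine natDegree_add_le_of_degree_le ((natDegree_C_mul_X_pow_le _ _).trans (by omega))
        ((natDegree_C_mul_X_pow_le _ _).trans (by omega))
    · exact (natDegree_C_mul_X_pow_le _ _).trans (by omega)
  have hP : Pos n Q := by
    intro z hz
    exact ⟨TP n τ z, hpos z hz, hev z hz⟩
  obtain ⟨G, h1, h2, h3⟩ := FRQ n Q hd hQ0 hP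
  refine ⟨G, h1, h2, ?_⟩
  intro z hz
  have h4 := h3 z hz
  rw [hev z hz] at h4
  have h5 := mul_right_cancel₀ (pow_ne_zero n (unit_ne hz)) h4
  show ‖G.eval z‖ ^ 2 = _
  exact_mod_cast h5.symm

end Pool.Agent.H34.NP
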